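import Pool.Agent.Lib_MP_3ec6ac.Scalar

open Set Filter Topology

namespace Pool.Agent.LibMP3ec6ac

/-- Rotation by a quarter turn. -/
noncomputable def Rot : (ℝ × ℝ) ≃L[ℝ] (ℝ × ℝ) :=
  ContinuousLinearEquiv.equivOfInverse
    ((-(ContinuousLinearMap.snd ℝ ℝ ℝ)).prod (ContinuousLinearMap.fst ℝ ℝ ℝ))
    ((ContinuousLinearMap.snd ℝ ℝ ℝ).prod (-(ContinuousLinearMap.fst ℝ ℝ ℝ)))
    (fun z => by simp) (fun z => by simp)

theorem Rot_apply (z : ℝ × ℝ) : Rot z = (-z.2, z.1) := rfl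

theorem oneL_apply (z : ℝ × ℝ) : (1 : (ℝ × ℝ) ≃L[ℝ] (ℝ × ℝ)) z = z := rfl

theorem mulL_apply (f g : (ℝ × ℝ) ≃L[ℝ] (ℝ × ℝ)) (z : ℝ × ℝ) : (f * g) z = f (g z) := rfl

theorem Rot_pow_four : Rot ^ 4 = 1 := by
  ext z <;> simp [pow_succ, Rot_apply, oneL_apply, mulL_apply]

theorem exists_ball (f : ℝ → ℝ × ℝ) {a b : ℝ} (hf : ContinuousOn f (Icc a b)) :
    ∃ r, ∀ t ∈ Icc a b, f t ∈ Metric.closedBall (0 : ℝ × ℝ) r := by
  obtain ⟨r, hr⟩ := (isCompact_Icc.image_of_continuousOn hf).isBounded.subset_closedBall 0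
  exact ⟨r, fun t ht => hr (mem_image_of_mem f ht)⟩

theorem unique_right {X : ℝ × ℝ → ℝ × ℝ} (hX : ContDiff ℝ 1 X) {f g : ℝ → ℝ × ℝ} {a b : ℝ}
    (hf : ∀ t ∈ Icc a b, HasDerivAt f (X (f t)) t)
    (hg : ∀ t ∈ Icc a b, HasDerivAt g (X (g t)) t) (hab : f a = g a) :
    EqOn f g (Icc a b) := by
  have hfc : ContinuousOn f (Icc a b) := HasDerivAt.continuousOn hf
  have hgc : ContinuousOn g (Icc a b) := HasDerivAt.continuousOn hg
  obtain ⟨r, hr⟩ := exists_ball f hfc
  obtain ⟨s, hs⟩ := exists_ball g hgc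
  obtain ⟨K, hK⟩ := (hX.contDiffOn (s := Metric.closedBall (0 : ℝ × ℝ) (max r s))
    ).exists_lipschitzOnWith one_ne_zero (convex_closedBall _ _) (isCompact_closedBall _ _)
  exact ODE_solution_unique_of_mem_Icc_right (v := fun _ => X)
    (s := fun _ => Metric.closedBall (0 : ℝ × ℝ) (max r s)) (K := K) (fun t _ => hK) hfc
    (fun t ht => (hf t (Ico_subset_Icc_self ht)).hasDerivWithinAt)
    (fun t ht => Metric.closedBall_subset_closedBall (le_max_left _ _)
      (hr t (Ico_subset_Icc_self ht))) hgc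
    (fun t ht => (hg t (Ico_subset_Icc_self ht)).hasDerivWithinAt)
    (fun t ht => Metric.closedBall_subset_closedBall (le_max_right _ _)
      (hs t (Ico_subset_Icc_self ht))) hab

theorem unique_left {X : ℝ × ℝ → ℝ × ℝ} (hX : ContDiff ℝ 1 X) {f g : ℝ → ℝ × ℝ} {a b : ℝ}
    (hf : ∀ t ∈ Icc a b, HasDerivAt f (X (f t)) t)
    (hg : ∀ t ∈ Icc a b, HasDerivAt g (X (g t)) t) (hab : f b = g b) :
    EqOn f g (Icc a b) := by
  have hfc : ContinuousOn f (Icc a b) := HasDerivAt.continuousOn hf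
  have hgc : ContinuousOn g (Icc a b) := HasDerivAt.continuousOn hg
  obtain ⟨r, hr⟩ := exists_ball f hfc
  obtain ⟨s, hs⟩ := exists_ball g hgc
  obtain ⟨K, hK⟩ := (hX.contDiffOn (s := Metric.closedBall (0 : ℝ × ℝ) (max r s))
    ).exists_lipschitzOnWith one_ne_zero (convex_closedBall _ _) (isCompact_closedBall _ _)
  exact ODE_solution_unique_of_mem_Icc_left (v := fun _ => X)
    (s := fun _ => Metric.closedBall (0 : ℝ × ℝ) (max r s)) (K := K) (fun t _ => hK) hfc
    (fun t ht => (hf t (Ioc_subset_Icc_self ht)).hasDerivWithinAt)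
    (fun t ht => Metric.closedBall_subset_closedBall (le_max_left _ _)
      (hr t (Ioc_subset_Icc_self ht))) hgc
    (fun t ht => (hg t (Ioc_subset_Icc_self ht)).hasDerivWithinAt)
    (fun t ht => Metric.closedBall_subset_closedBall (le_max_right _ _)
      (hs t (Ioc_subset_Icc_self ht))) hab

/-- `γ` is a global integral curve of `X`. -/
def IC (X : ℝ × ℝ → ℝ × ℝ) (γ : ℝ → ℝ × ℝ) : Prop := ∀ t, HasDerivAt γ (X (γ t)) t

theorem IC.unique {X : ℝ × ℝ → ℝ × ℝ} (hX : ContDiff ℝ 1 X) {f g : ℝ → ℝ × ℝ}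
    (hf : IC X f) (hg : IC X g) {t₀ : ℝ} (h : f t₀ = g t₀) : f = g := by
  ext1 t
  rcases le_total t₀ t with ht | ht
  · exact unique_right hX (a := t₀) (b := t) (fun s _ => hf s) (fun s _ => hg s) h
      (right_mem_Icc.2 ht)
  · exact unique_left hX (a := t) (b := t₀) (fun s _ => hf s) (fun s _ => hg s) h
      (left_mem_Icc.2 ht)

theorem IC.shift {X : ℝ × ℝ → ℝ × ℝ} {f : ℝ → ℝ × ℝ} (hf : IC X f) (c : ℝ) :
    IC X (fun t => f (t + c)) := by
  intro t
  exact (hf (t + c)).comp_add_const t c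

theorem IC.map {X : ℝ × ℝ → ℝ × ℝ} (L : (ℝ × ℝ) ≃L[ℝ] (ℝ × ℝ)) (hL : ∀ z, X (L z) = L (X z))
    {f : ℝ → ℝ × ℝ} (hf : IC X f) : IC X (fun t => L (f t)) := by
  intro t
  rw [hL]
  exact L.toContinuousLinearMap.hasFDerivAt.comp_hasDerivAt t (hf t)

theorem equivariant_zpow {X : ℝ × ℝ → ℝ × ℝ} (hR : ∀ z, X (Rot z) = Rot (X z)) (n : ℤ) :
    ∀ z, X ((Rot ^ n) z) = (Rot ^ n) (X z) := by
  have hinv : ∀ z, X (Rot⁻¹ z) = Rot⁻¹ (X z) := by
    intro z
    have h := hR (Rot⁻¹ z)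
    have h1 : Rot (Rot⁻¹ z) = z := Rot.apply_symm_apply z
    rw [h1] at h
    rw [h]
    exact (Rot.symm_apply_apply _).symm
  induction n using Int.induction_on with
  | zero => intro z; simp [oneL_apply]
  | succ n ih =>
    intro z
    rw [zpow_add_one]
    show X ((Rot ^ (n:ℤ)) (Rot z)) = (Rot ^ (n:ℤ)) (Rot (X z))
    rw [ih, hR]
  | pred n ih =>
    intro z
    rw [zpow_sub_one]
    show X ((Rot ^ (-(n:ℤ))) (Rot⁻¹ z)) = (Rot ^ (-(n:ℤ))) (Rot⁻¹ (X z))
    rw [ih, hinv]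

/-- The data of the construction. -/
structure Data (X : ℝ × ℝ → ℝ × ℝ) (A B G : ℝ → ℝ) (M b : ℝ) : Prop where
  hM : 0 < M
  hb : 1 ≤ b
  hX : ContDiff ℝ 1 X
  hR : ∀ z, X (Rot z) = Rot (X z)
  hT : ∀ x y, M ≤ y → X (x, y) = (A x, B x)
  hAc : Continuous A
  hA1 : ∀ x, A x ≤ -(1/2)
  hA2 : ∀ x, -(3/2) ≤ A x
  hG : ∀ x, HasDerivAt G (B x / A x) x
  hG1 : ∀ x, M ≤ x → G x = M + b - (x - M) / 3
  hG2 : ∀ x, x ≤ -M → G x = M + 3 * (x + M + b)
  hG3 : ∀ x, -M ≤ x → x ≤ M → M + 1 ≤ G x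

variable {X : ℝ × ℝ → ℝ × ℝ} {A B G : ℝ → ℝ} {M b : ℝ}

/-- Lower bound for a level line of the first integral `y - G x`. -/
theorem Data.level (D : Data X A B G M b) {x0 V x : ℝ} (hV : |V| < 1) (h0 : M < G x0 + V)
    (hx0 : x ≤ x0) (hx1 : -(M + b + V / 3) ≤ x) : M ≤ G x + V := by
  have hV' := abs_lt.1 hV
  rcases le_total x (-M) with h | h
  · rw [D.hG2 x h]; linarith
  · rcases le_total x M with h' | h'
    · have := D.hG3 x h h'; linarith
    · rw [D.hG1 x h']
      rw [D.hG1 x0 (h'.trans hx0)] at h0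
      linarith

theorem Data.level_lt (D : Data X A B G M b) {x0 V x : ℝ} (hV : |V| < 1) (h0 : M < G x0 + V)
    (hx0 : x ≤ x0) (hx1 : -(M + b + V / 3) < x) : M < G x + V := by
  have hV' := abs_lt.1 hV
  rcases le_total x (-M) with h | h
  · rw [D.hG2 x h]; linarith
  · rcases le_total x M with h' | h'
    · have := D.hG3 x h h'; linarith
    · rw [D.hG1 x h']
      rw [D.hG1 x0 (h'.trans hx0)] at h0
      linarith

theorem Data.target_lt (D : Data X A B G M b) {x0 V : ℝ} (hV : |V| < 1) (h0 : M < G x0 + V) :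
    -(M + b + V / 3) < x0 := by
  have hV' := abs_lt.1 hV
  have hb := D.hb
  rcases le_total x0 (-M) with h | h
  · rw [D.hG2 x0 h] at h0; linarith
  · linarith

/-- The explicit arc in the upper region. -/
theorem Data.arc (D : Data X A B G M b) {x0 V : ℝ} (hV : |V| < 1) (h0 : M < G x0 + V) :
    ∃ (γ : ℝ → ℝ × ℝ) (T : ℝ), 0 < T ∧ γ 0 = (x0, G x0 + V) ∧ γ T = Rot (M, M + b + V / 3) ∧
      (∀ t ∈ Icc 0 T, HasDerivAt γ (X (γ t)) t) ∧
      (∀ t ∈ Ico 0 T, M < (γ t).2 ∧ (γ t).2 - G (γ t).1 = V) := by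
  obtain ⟨ξ, hξ0, hξ, hanti, hsurj⟩ := scalar_solution A D.hAc D.hA1 D.hA2 x0
  obtain ⟨T, hT⟩ := hsurj (-(M + b + V / 3))
  have hlt := D.target_lt hV h0
  have hTpos : 0 < T := by
    rw [← hT, ← hξ0] at hlt
    exact hanti.lt_iff_gt.1 hlt
  refine ⟨fun t => (ξ t, G (ξ t) + V), T, hTpos, by simp [hξ0], ?_, ?_, ?_⟩
  · simp only [hT, Rot_apply]
    rw [D.hG2 _ (by have := abs_lt.1 hV; have := D.hb; linarith)]
    ext
    · simp
    · simp; ring
  · intro t ht
    have hle : ξ t ≤ x0 := by rw [← hξ0]; exact hanti.antitone ht.1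
    have hge : -(M + b + V / 3) ≤ ξ t := by rw [← hT]; exact hanti.antitone ht.2
    have hlev := D.level hV h0 hle hge
    simp only
    rw [D.hT _ _ hlev]
    have hAne : A (ξ t) ≠ 0 := by have := D.hA1 (ξ t); linarith
    have h2 : HasDerivAt (fun t => G (ξ t) + V) (B (ξ t)) t := by
      have := ((D.hG (ξ t)).comp t (hξ t)).add_const V
      rw [div_mul_cancel₀ _ hAne] at this
      exact this
    exact (hξ t).prodMk h2
  · intro t ht
    have hle : ξ t ≤ x0 := by rw [← hξ0]; exact hanti.antitone ht.1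
    have hge : -(M + b + V / 3) < ξ t := by rw [← hT]; exact hanti ht.2
    exact ⟨D.level_lt hV h0 hle hge, by simp⟩

/-- Every integral curve starting near the cycle in the upper region hits the rotated section. -/
theorem Data.step (D : Data X A B G M b) {ψ : ℝ → ℝ × ℝ} (hψ : IC X ψ) {V : ℝ} (hV : |V| < 1)
    (hy : M < (ψ 0).2) (hV0 : (ψ 0).2 - G (ψ 0).1 = V) :
    ∃ T, ψ T = Rot (M, M + b + V / 3) := by
  have h0 : M < G (ψ 0).1 + V := by linarith
  obtain ⟨γ, T, hT, hγ0, hγT, hγ, -⟩ := D.arc hV h0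
  refine ⟨T, ?_⟩
  have h := unique_right D.hX (a := 0) (b := T) (fun s _ => hψ s) hγ (by
    rw [hγ0]
    ext
    · rfl
    · simp; linarith)
  rw [h (right_mem_Icc.2 hT.le), hγT]

theorem Data.G_M (D : Data X A B G M b) : G M = M + b := by
  rw [D.hG1 M le_rfl]; ring

/-- Iterating the return map. -/
theorem Data.iter (D : Data X A B G M b) {ψ : ℝ → ℝ × ℝ} (hψ : IC X ψ) {V : ℝ} (hV : |V| < 1)
    (h0 : ψ 0 = (M, M + b + V)) (k : ℕ) :
    ∃ t, ψ t = (Rot ^ k) (M, M + b + V / 3 ^ k) := by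
  have hb := D.hb
  induction k with
  | zero => exact ⟨0, by simp [h0, oneL_apply]⟩
  | succ k ih =>
    obtain ⟨t, ht⟩ := ih
    set L : (ℝ × ℝ) ≃L[ℝ] (ℝ × ℝ) := Rot ^ (-(k:ℤ)) with hL
    have hLR : ∀ z, L ((Rot ^ k) z) = z := by
      intro z
      have : L * Rot ^ k = 1 := by rw [hL, zpow_neg, zpow_natCast]; simp
      have h2 := congrArg (fun e : (ℝ × ℝ) ≃L[ℝ] (ℝ × ℝ) => e z) this
      exact h2
    have hRL : ∀ z, (Rot ^ k) (L z) = z := by
      intro z
      have : Rot ^ k * L = 1 := by rw [hL, zpow_neg, zpow_natCast]; simp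
      have h2 := congrArg (fun e : (ℝ × ℝ) ≃L[ℝ] (ℝ × ℝ) => e z) this
      exact h2
    have hχ : IC X (fun τ => L (ψ (τ + t))) :=
      IC.map L (equivariant_zpow D.hR _) (hψ.shift t)
    have hVk : |V / 3 ^ k| < 1 := by
      rw [abs_div, abs_of_pos (by positivity : (0:ℝ) < 3 ^ k)]
      have h3 : (1:ℝ) ≤ 3 ^ k := one_le_pow₀ (by norm_num)
      calc |V| / 3 ^ k ≤ |V| / 1 := by gcongr
        _ < 1 := by simpa using hV
    have hVk' := abs_lt.1 hVk
    obtain ⟨T, hT⟩ := D.step hχ hVk (by simp [ht, hLR]; linarith) (by simp [ht, hLR, D.G_M])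
    refine ⟨T + t, ?_⟩
    have h4 : (Rot ^ k) (L (ψ (T + t))) = (Rot ^ k) (Rot (M, M + b + V / 3 ^ k / 3)) := by
      rw [hT]
    rw [hRL] at h4
    rw [h4, pow_succ, pow_succ]
    show (Rot ^ k) (Rot (M, M + b + V / 3 ^ k / 3)) = (Rot ^ k) (Rot (M, M + b + V / (3 ^ k * 3)))
    rw [div_div]

/-- The basic periodic integral curve, obtained by gluing rotated copies of one arc. -/
theorem Data.cycle (D : Data X A B G M b) :
    ∃ (φ : ℝ → ℝ × ℝ) (T : ℝ), 0 < T ∧ IC X φ ∧ φ 0 = (M, M + b) ∧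
      (∀ t, φ (t + T) = Rot (φ t)) ∧
      (∀ t, ∃ n : ℤ, M < ((Rot ^ n) (φ t)).2 ∧
        ((Rot ^ n) (φ t)).2 - G ((Rot ^ n) (φ t)).1 = 0) := by
  have hb := D.hb
  obtain ⟨γ, T, hT, hγ0, hγT, hγ, hγ'⟩ := D.arc (x0 := M) (V := 0) (by simp)
    (by rw [D.G_M]; linarith)
  rw [D.G_M, add_zero] at hγ0
  rw [zero_div, add_zero, ← hγ0] at hγT
  set N : ℝ → ℤ := fun t => ⌊t / T⌋ with hN
  set φ : ℝ → ℝ × ℝ := fun t => (Rot ^ (N t)) (γ (t - N t * T)) with hφ
  have hfr : ∀ t, t - N t * T ∈ Ico 0 T := by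
    intro t
    have h1 : (N t : ℝ) ≤ t / T := Int.floor_le _
    have h2 : t / T < N t + 1 := Int.lt_floor_add_one _
    rw [le_div_iff₀ hT] at h1
    rw [div_lt_iff₀ hT] at h2
    constructor <;> nlinarith
  have hNeq : ∀ (t : ℝ) (n : ℤ), n * T ≤ t → t < (n + 1) * T → N t = n := by
    intro t n h1 h2
    rw [hN, Int.floor_eq_iff]
    constructor
    · rw [le_div_iff₀ hT]; exact h1
    · rw [div_lt_iff₀ hT]; exact h2
  -- the arc on the n-th interval
  have hpiece : ∀ (n : ℤ) (t : ℝ), t - n * T ∈ Icc 0 T →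
      HasDerivAt (fun s => (Rot ^ n) (γ (s - n * T)))
        (X ((Rot ^ n) (γ (t - n * T)))) t := by
    intro n t ht
    rw [equivariant_zpow D.hR]
    have h1 : HasDerivAt (fun s => γ (s - n * T)) (X (γ (t - n * T))) t :=
      (hγ _ ht).comp_sub_const t (n * T)
    exact (Rot ^ n).toContinuousLinearMap.hasFDerivAt.comp_hasDerivAt t h1
  have hIC : IC X φ := by
    intro t
    have hmem := hfr t
    set n := N t with hn
    have hR : HasDerivWithinAt φ (X (φ t)) (Ici t) t := by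
      have h1 := (hpiece n t ⟨hmem.1, hmem.2.le⟩).hasDerivWithinAt (s := Ici t)
      refine h1.congr_of_eventuallyEq ?_ rfl
      have h2 : ∀ᶠ s in 𝓝[≥] t, s < (n + 1) * T := by
        apply mem_nhdsWithin_of_mem_nhds
        apply Iio_mem_nhds
        have := hmem.2
        linarith
      filter_upwards [h2, self_mem_nhdsWithin] with s hs1 hs2
      have hs3 : t ≤ s := hs2
      have h4 : N s = n := hNeq s n (by have := hmem.1; linarith) hs1
      show (Rot ^ (N s)) (γ (s - N s * T)) = _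
      rw [h4]
    have hL : HasDerivWithinAt φ (X (φ t)) (Iic t) t := by
      rcases eq_or_lt_of_le hmem.1 with h0 | h0
      · -- t = n T
        have ht : t = n * T := by linarith
        have hval : φ t = (Rot ^ (n - 1)) (γ (t - (n - 1 : ℤ) * T)) := by
          have e1 : t - ((n - 1 : ℤ) : ℝ) * T = T := by push_cast; linarith
          rw [e1, hγT]
          show (Rot ^ (N t)) (γ (t - N t * T)) = _
          rw [← hn, ← h0, zpow_sub_one]
          show (Rot ^ n) (γ 0) = (Rot ^ n) (Rot⁻¹ (Rot (γ 0)))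
          congr 1
          exact (Rot.symm_apply_apply _).symm
        have h1 := (hpiece (n - 1) t (by
          have e1 : t - ((n - 1 : ℤ) : ℝ) * T = T := by push_cast; linarith
          rw [e1]; exact ⟨hT.le, le_rfl⟩)).hasDerivWithinAt (s := Iic t)
        rw [← hval] at h1
        refine h1.congr_of_eventuallyEq ?_ hval
        have h2 : ∀ᶠ s in 𝓝[≤] t, (n - 1) * T < s := by
          apply mem_nhdsWithin_of_mem_nhds
          apply Ioi_mem_nhds
          linarith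
        filter_upwards [h2, self_mem_nhdsWithin] with s hs1 hs2
        have hs3 : s ≤ t := hs2
        rcases eq_or_lt_of_le hs3 with hs4 | hs4
        · rw [hs4]; exact hval
        · have h4 : N s = n - 1 := hNeq s (n - 1) (by push_cast; linarith)
            (by push_cast; linarith)
          show (Rot ^ (N s)) (γ (s - N s * T)) = _
          rw [h4]
      · have h1 := (hpiece n t ⟨hmem.1, hmem.2.le⟩).hasDerivWithinAt (s := Iic t)
        refine h1.congr_of_eventuallyEq ?_ rfl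
        have h2 : ∀ᶠ s in 𝓝[≤] t, n * T < s := by
          apply mem_nhdsWithin_of_mem_nhds
          apply Ioi_mem_nhds
          linarith
        filter_upwards [h2, self_mem_nhdsWithin] with s hs1 hs2
        have hs3 : s ≤ t := hs2
        have h4 : N s = n := hNeq s n hs1.le (by have := hmem.2; linarith)
        show (Rot ^ (N s)) (γ (s - N s * T)) = _
        rw [h4]
    have h := hL.union hR
    rw [Iic_union_Ici] at h
    exact hasDerivWithinAt_univ.1 h
  refine ⟨φ, T, hT, hIC, ?_, ?_, ?_⟩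
  · have h0 : N 0 = 0 := by simp [hN]
    show (Rot ^ (N 0)) (γ (0 - N 0 * T)) = _
    rw [h0]
    simp [hγ0, oneL_apply]
  · intro t
    have h1 : N (t + T) = N t + 1 := by
      simp only [hN]
      rw [add_div, div_self hT.ne', Int.floor_add_one]
    show (Rot ^ (N (t + T))) (γ (t + T - N (t + T) * T)) = Rot ((Rot ^ (N t)) (γ (t - N t * T)))
    rw [h1]
    have h2 : t + T - ((N t + 1 : ℤ) : ℝ) * T = t - N t * T := by push_cast; ring
    rw [h2, add_comm (N t) 1, zpow_one_add]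
    rfl
  · intro t
    refine ⟨-(N t), ?_⟩
    have h1 : (Rot ^ (-(N t))) (φ t) = γ (t - N t * T) := by
      show (Rot ^ (-(N t)) * Rot ^ (N t)) (γ (t - N t * T)) = _
      rw [← zpow_add]
      simp [oneL_apply]
    rw [h1]
    exact hγ' _ (hfr t)

theorem closed_range_of_periodic {ψ : ℝ → ℝ × ℝ} (hc : Continuous ψ) {τ : ℝ} (hτ : 0 < τ)
    (hp : ∀ t, ψ (t + τ) = ψ t) : IsClosed (range ψ) := by
  have hper : Function.Periodic ψ τ := hp
  have h : range ψ = ψ '' Icc 0 (0 + τ) := (hper.image_Icc hτ 0).symm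
  rw [h]
  exact (isCompact_Icc.image hc).isClosed

theorem Data.main (D : Data X A B G M b) :
    ∃ (φ : ℝ → ℝ × ℝ) (U : Set (ℝ × ℝ)), IC X φ ∧ (∃ τ, 0 < τ ∧ ∀ t, φ (t + τ) = φ t) ∧
      (∃ t, φ t ≠ φ 0) ∧ IsOpen U ∧ range φ ⊆ U ∧
      ∀ ψ, IC X ψ → (∃ τ, 0 < τ ∧ ∀ t, ψ (t + τ) = ψ t) → range ψ ⊆ U → range ψ = range φ := by
  have hb := D.hb
  have hM := D.hM
  obtain ⟨φ, T, hT, hIC, hφ0, hφT, hφU⟩ := D.cycle
  have hGc : Continuous G := continuous_iff_continuousAt.2 fun x => (D.hG x).continuousAt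
  set Ut : Set (ℝ × ℝ) := {z | M < z.2 ∧ |z.2 - G z.1| < 1} with hUt
  have hUo : IsOpen Ut := by
    apply IsOpen.inter
    · exact isOpen_lt continuous_const continuous_snd
    · exact isOpen_lt (continuous_snd.sub (hGc.comp continuous_fst)).abs continuous_const
  set U : Set (ℝ × ℝ) := ⋃ n : ℤ, (fun z => (Rot ^ n) z) ⁻¹' Ut with hU
  have hφn : ∀ (n : ℕ) t, φ (t + n * T) = (Rot ^ n) (φ t) := by
    intro n
    induction n with
    | zero => intro t; simp [oneL_apply]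
    | succ n ih =>
      intro t
      have e : t + ((n + 1 : ℕ) : ℝ) * T = (t + n * T) + T := by push_cast; ring
      rw [e, hφT, ih, add_comm n 1, pow_add, pow_one]
      rfl
  have hrot : range φ = (fun z => Rot z) ⁻¹' range φ := by
    ext z
    constructor
    · rintro ⟨t, rfl⟩
      exact ⟨t + T, hφT t⟩
    · rintro ⟨t, ht⟩
      refine ⟨t - T, ?_⟩
      have h1 := hφT (t - T)
      rw [sub_add_cancel, ht] at h1
      exact (Rot.injective h1).symm
  have hrotn : ∀ n : ℤ, ∀ z, (Rot ^ n) z ∈ range φ → z ∈ range φ := by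
    intro n
    induction n using Int.induction_on with
    | zero => intro z hz; simpa [oneL_apply] using hz
    | succ n ih =>
      intro z hz
      rw [zpow_add_one] at hz
      have := ih (Rot z) hz
      rw [hrot]
      exact this
    | pred n ih =>
      intro z hz
      rw [zpow_sub_one] at hz
      have h1 := ih (Rot⁻¹ z) hz
      rw [hrot] at h1
      have h2 : Rot (Rot⁻¹ z) = z := Rot.apply_symm_apply z
      have h3 : Rot (Rot⁻¹ z) ∈ range φ := h1
      rwa [h2] at h3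
  refine ⟨φ, U, hIC, ⟨4 * T, by positivity, ?_⟩, ⟨T, ?_⟩, ?_, ?_, ?_⟩
  · intro t
    have h := hφn 4 t
    rw [Rot_pow_four] at h
    simpa [oneL_apply] using h
  · have h := hφT 0
    rw [zero_add, hφ0, Rot_apply] at h
    rw [h, hφ0]
    intro h2
    have := congrArg Prod.fst h2
    simp at this
    linarith
  · exact isOpen_iUnion fun n => hUo.preimage (Rot ^ n).continuous
  · rintro _ ⟨t, rfl⟩
    obtain ⟨n, hn1, hn2⟩ := hφU t
    rw [hU, mem_iUnion]
    exact ⟨n, hn1, by rw [hn2]; simp⟩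
  · rintro ψ hψ ⟨τ, hτ, hper⟩ hψU
    have h0 : ψ 0 ∈ U := hψU (mem_range_self 0)
    rw [hU, mem_iUnion] at h0
    obtain ⟨n, hn1, hn2⟩ := h0
    have hψc : Continuous ψ := continuous_iff_continuousAt.2 fun t => (hψ t).continuousAt
    -- the rotated curve hits the rotated section
    have hψ' : IC X (fun t => (Rot ^ n) (ψ t)) := IC.map _ (equivariant_zpow D.hR n) hψ
    obtain ⟨t1, ht1⟩ := D.step hψ' hn2 hn1 rfl
    set V := ((Rot ^ n) (ψ 0)).2 - G ((Rot ^ n) (ψ 0)).1 with hV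
    have hV3 : |V / 3| < 1 := by
      rw [abs_div, abs_of_pos (by norm_num : (0:ℝ) < 3)]
      have : |V| < 1 := hn2
      linarith
    -- rotate back once
    set χ : ℝ → ℝ × ℝ := fun t => (Rot ^ (n - 1)) (ψ (t + t1)) with hχ
    have hχIC : IC X χ := IC.map _ (equivariant_zpow D.hR (n - 1)) (hψ.shift t1)
    have hχ0 : χ 0 = (M, M + b + V / 3) := by
      have h5 : Rot ((Rot ^ (n - 1)) (ψ t1)) = (Rot ^ n) (ψ t1) := by
        rw [← mulL_apply, ← zpow_one_add]
        congr 2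
        ring
      have h6 : Rot (χ 0) = Rot (M, M + b + V / 3) := by
        rw [hχ]
        simp only [zero_add]
        rw [h5]
        exact ht1
      exact Rot.injective h6
    have hχper : ∀ t, χ (t + τ) = χ t := by
      intro t
      simp only [hχ]
      rw [show t + τ + t1 = (t + t1) + τ by ring, hper]
    have hχc : Continuous χ := continuous_iff_continuousAt.2 fun t => (hχIC t).continuousAt
    have hclosed : IsClosed (range χ) := closed_range_of_periodic hχc hτ hχper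
    have hseq : ∀ j : ℕ, ((M, M + b + V / 3 / 3 ^ (4 * j)) : ℝ × ℝ) ∈ range χ := by
      intro j
      obtain ⟨t, ht⟩ := D.iter hχIC hV3 hχ0 (4 * j)
      refine ⟨t, ?_⟩
      rw [ht, pow_mul, Rot_pow_four, one_pow]
      rfl
    have hlim : Tendsto (fun j : ℕ => ((M, M + b + V / 3 / 3 ^ (4 * j)) : ℝ × ℝ)) atTop
        (𝓝 (M, M + b)) := by
      apply Tendsto.prodMk_nhds tendsto_const_nhds
      have h7 : Tendsto (fun j : ℕ => V / 3 / 3 ^ (4 * j)) atTop (𝓝 0) := by
        have h8 : Tendsto (fun j : ℕ => V / 3 * ((1/3 : ℝ) ^ 4) ^ j) atTop (𝓝 (V / 3 * 0)) :=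
          (tendsto_pow_atTop_nhds_zero_of_lt_one (by positivity) (by norm_num)).const_mul _
        rw [mul_zero] at h8
        refine h8.congr fun j => ?_
        rw [← pow_mul, one_div, inv_pow, div_eq_mul_inv (V / 3)]
      simpa using h7.const_add (M + b)
    have hmem : ((M, M + b) : ℝ × ℝ) ∈ range χ :=
      hclosed.mem_of_tendsto hlim (Eventually.of_forall hseq)
    obtain ⟨t2, ht2⟩ := hmem
    have heq : (fun t => χ (t + t2)) = φ :=
      IC.unique D.hX (hχIC.shift t2) hIC (t₀ := 0) (by simp [ht2, hφ0])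
    ext z
    constructor
    · rintro ⟨t, rfl⟩
      apply hrotn (n - 1)
      refine ⟨t - t1 - t2, ?_⟩
      rw [← heq]
      simp [hχ]
    · intro hz
      -- z ∈ range φ implies (Rot^(n-1)) z ∈ range φ
      have h9 : (Rot ^ (n - 1)) z ∈ range φ := by
        apply hrotn (-(n - 1))
        rw [← mulL_apply, ← zpow_add]
        simpa [oneL_apply] using hz
      obtain ⟨t, ht⟩ := h9
      rw [← heq] at ht
      simp only [hχ] at ht
      exact ⟨_, (Rot ^ (n - 1)).injective ht⟩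

end Pool.Agent.LibMP3ec6ac
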