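import Pool.Agent.Lib_MP_3ec6ac.Core

open Set Filter Topology

namespace Pool.Agent.LibMP3ec6ac

/-- An odd smooth step: `0` on `[-100,100]`, `1` for `x ≥ 101`, `-1` for `x ≤ -101`. -/
noncomputable def step (x : ℝ) : ℝ :=
  Real.smoothTransition (x - 100) - Real.smoothTransition (-x - 100)

/-- Real part of `i w + w^5 / 8` at `w = u + i v`. -/
noncomputable def hre (u v : ℝ) : ℝ := -v + (u ^ 5 - 10 * u ^ 3 * v ^ 2 + 5 * u * v ^ 4) / 8

/-- Imaginary part of `i w + w^5 / 8` at `w = u + i v`. -/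
noncomputable def him (u v : ℝ) : ℝ := u + (5 * u ^ 4 * v - 10 * u ^ 2 * v ^ 3 + v ^ 5) / 8

noncomputable def Pf (z : ℝ × ℝ) : ℝ := hre (step z.1) (step z.2)

noncomputable def Qf (z : ℝ × ℝ) : ℝ := him (step z.1) (step z.2)

theorem step_contDiff {n : ℕ∞} : ContDiff ℝ n step := by
  unfold step
  exact (Real.smoothTransition.contDiff.comp (contDiff_id.sub contDiff_const)).sub
    (Real.smoothTransition.contDiff.comp (contDiff_id.neg.sub contDiff_const))

theorem step_neg (x : ℝ) : step (-x) = - step x := by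
  unfold step
  rw [neg_neg]
  ring

theorem step_ge {x : ℝ} (hx : 101 ≤ x) : step x = 1 := by
  unfold step
  rw [Real.smoothTransition.one_of_one_le (by linarith),
    Real.smoothTransition.zero_of_nonpos (by linarith)]
  ring

theorem step_le {x : ℝ} (hx : x ≤ -101) : step x = -1 := by
  unfold step
  rw [Real.smoothTransition.one_of_one_le (x := -x - 100) (by linarith),
    Real.smoothTransition.zero_of_nonpos (by linarith)]
  ring

theorem step_mid {x : ℝ} (h1 : -100 ≤ x) (h2 : x ≤ 100) : step x = 0 := by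
  unfold step
  rw [Real.smoothTransition.zero_of_nonpos (by linarith),
    Real.smoothTransition.zero_of_nonpos (by linarith)]
  ring

theorem step_le_one (x : ℝ) : step x ≤ 1 := by
  unfold step
  have h1 := Real.smoothTransition.le_one (x - 100)
  have h2 := Real.smoothTransition.nonneg (-x - 100)
  linarith

theorem neg_one_le_step (x : ℝ) : -1 ≤ step x := by
  unfold step
  have h1 := Real.smoothTransition.nonneg (x - 100)
  have h2 := Real.smoothTransition.le_one (-x - 100)
  linarith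

theorem Pf_contDiff {n : ℕ∞} : ContDiff ℝ n Pf := by
  unfold Pf hre
  have h1 : ContDiff ℝ n (fun z : ℝ × ℝ => step z.1) := step_contDiff.comp contDiff_fst
  have h2 : ContDiff ℝ n (fun z : ℝ × ℝ => step z.2) := step_contDiff.comp contDiff_snd
  fun_prop

theorem Qf_contDiff {n : ℕ∞} : ContDiff ℝ n Qf := by
  unfold Qf him
  have h1 : ContDiff ℝ n (fun z : ℝ × ℝ => step z.1) := step_contDiff.comp contDiff_fst
  have h2 : ContDiff ℝ n (fun z : ℝ × ℝ => step z.2) := step_contDiff.comp contDiff_snd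
  fun_prop

theorem hre_le {u : ℝ} (h1 : -1 ≤ u) (h2 : u ≤ 1) : hre u 1 ≤ -(1/2) := by
  unfold hre
  have h3 : 0 ≤ -u ^ 4 + u ^ 3 + 9 * u ^ 2 - 9 * u + 4 := by
    rcases le_total 0 u with h | h
    · nlinarith [mul_nonneg h (sub_nonneg.2 h2), mul_nonneg (mul_nonneg h h) (mul_nonneg h (sub_nonneg.2 h2)), sq_nonneg (u - 1/2)]
    · nlinarith [mul_nonneg (neg_nonneg.2 h) (by linarith : (0:ℝ) ≤ u + 1), mul_nonneg (mul_nonneg (neg_nonneg.2 h) (neg_nonneg.2 h)) (mul_nonneg (neg_nonneg.2 h) (by linarith : (0:ℝ) ≤ u + 1)), sq_nonneg u, sq_nonneg (u^2)]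
  nlinarith [mul_nonneg (by linarith : (0:ℝ) ≤ u + 1) h3]

theorem le_hre {u : ℝ} (h1 : -1 ≤ u) (h2 : u ≤ 1) : -(3/2) ≤ hre u 1 := by
  have h := hre_le (u := -u) (by linarith) (by linarith)
  unfold hre at h ⊢
  nlinarith

theorem abs_him_le {u : ℝ} (h1 : -1 ≤ u) (h2 : u ≤ 1) : |him u 1| ≤ 3/2 := by
  unfold him
  have h3 : u ^ 2 ≤ 1 := by nlinarith
  rw [abs_le]
  constructor <;> nlinarith [sq_nonneg (u^2 - 1), sq_nonneg u, mul_nonneg (sq_nonneg u) (sub_nonneg.2 h3)]

noncomputable def Af (x : ℝ) : ℝ := hre (step x) 1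
noncomputable def Bf (x : ℝ) : ℝ := him (step x) 1
noncomputable def Sf (x : ℝ) : ℝ := Bf x / Af x

theorem Af_le (x : ℝ) : Af x ≤ -(1/2) := hre_le (neg_one_le_step x) (step_le_one x)
theorem le_Af (x : ℝ) : -(3/2) ≤ Af x := le_hre (neg_one_le_step x) (step_le_one x)

theorem Af_ne (x : ℝ) : Af x ≠ 0 := by have := Af_le x; linarith

theorem step_cont : Continuous step := (step_contDiff (n := 0)).continuous

theorem Af_cont : Continuous Af := by
  have := step_cont
  unfold Af hre
  fun_prop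

theorem Bf_cont : Continuous Bf := by
  have := step_cont
  unfold Bf him
  fun_prop

theorem Sf_cont : Continuous Sf := Bf_cont.div Af_cont Af_ne

theorem abs_Sf_le (x : ℝ) : |Sf x| ≤ 3 := by
  unfold Sf
  rw [abs_div, div_le_iff₀ (abs_pos.2 (Af_ne x))]
  have h1 : |Bf x| ≤ 3/2 := abs_him_le (neg_one_le_step x) (step_le_one x)
  have h2 : 1/2 ≤ |Af x| := by
    rw [abs_of_neg (by have := Af_le x; linarith)]
    have := Af_le x
    linarith
  linarith

theorem Sf_ge {x : ℝ} (hx : 101 ≤ x) : Sf x = -(1/3) := by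
  unfold Sf Af Bf hre him
  rw [step_ge hx]
  norm_num

theorem Sf_le {x : ℝ} (hx : x ≤ -101) : Sf x = 3 := by
  unfold Sf Af Bf hre him
  rw [step_le hx]
  norm_num

theorem Sf_mid {x : ℝ} (h1 : -100 ≤ x) (h2 : x ≤ 100) : Sf x = -(1/8) := by
  unfold Sf Af Bf hre him
  rw [step_mid h1 h2]
  norm_num

noncomputable def G0 (x : ℝ) : ℝ := ∫ s in (0:ℝ)..x, Sf s

noncomputable def bf : ℝ := (G0 (-101) - G0 101) / 2

noncomputable def Gf (x : ℝ) : ℝ := G0 x - G0 101 + 101 + bf

theorem G0_sub (x y : ℝ) : G0 x - G0 y = ∫ s in y..x, Sf s := by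
  unfold G0
  rw [intervalIntegral.integral_interval_sub_left] <;>
  exact Sf_cont.intervalIntegrable _ _

theorem G0_abs (x y : ℝ) : |G0 x - G0 y| ≤ 3 * |x - y| := by
  rw [G0_sub]
  have h := intervalIntegral.norm_integral_le_of_norm_le_const (f := Sf) (C := 3) (a := y)
    (b := x) (fun s _ => by rw [Real.norm_eq_abs]; exact abs_Sf_le s)
  rwa [Real.norm_eq_abs] at h

theorem G0_const {x y c : ℝ} (h : ∀ s ∈ uIcc y x, Sf s = c) : G0 x - G0 y = c * (x - y) := by
  rw [G0_sub, intervalIntegral.integral_congr h]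
  simp [mul_comm]

theorem Gf_hasDerivAt (x : ℝ) : HasDerivAt Gf (Sf x) x := by
  have h : HasDerivAt G0 (Sf x) x := (Sf_cont.integral_hasStrictDerivAt 0 x).hasDerivAt
  exact ((h.sub_const _).add_const _).add_const _

theorem G0_mid {x : ℝ} (h1 : -100 ≤ x) (h2 : x ≤ 100) : G0 x - G0 100 = (100 - x) / 8 := by
  rw [G0_const (c := -(1/8))]
  · ring
  · intro s hs
    rw [uIcc_of_ge h2] at hs
    exact Sf_mid (h1.trans hs.1) hs.2

theorem bf_ge : 19 / 2 ≤ bf := by
  unfold bf
  have h1 := abs_le.1 (G0_abs (-101) (-100))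
  have h2 := abs_le.1 (G0_abs 101 100)
  have h3 := G0_mid (x := -100) le_rfl (by norm_num)
  norm_num at h1 h2 h3
  linarith [h1.1, h1.2, h2.1, h2.2]

theorem dataf : Data (fun z => (Pf z, Qf z)) Af Bf Gf 101 bf where
  hM := by norm_num
  hb := by linarith [bf_ge]
  hX := (Pf_contDiff (n := 1)).prodMk (Qf_contDiff (n := 1))
  hR := by
    intro z
    simp only [Rot_apply, Pf, Qf, step_neg, hre, him]
    ext <;> simp <;> ring
  hT := by
    intro x y hy
    simp only [Pf, Qf, Af, Bf]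
    rw [step_ge hy]
  hAc := Af_cont
  hA1 := Af_le
  hA2 := le_Af
  hG := Gf_hasDerivAt
  hG1 := by
    intro x hx
    have h := G0_const (x := x) (y := 101) (c := -(1/3)) (by
      intro s hs
      rw [uIcc_of_le hx] at hs
      exact Sf_ge hs.1)
    unfold Gf
    linarith
  hG2 := by
    intro x hx
    have h := G0_const (x := x) (y := -101) (c := 3) (by
      intro s hs
      rw [uIcc_of_ge hx] at hs
      exact Sf_le hs.2)
    unfold Gf
    have : G0 (-101) - G0 101 = 2 * bf := by unfold bf; ring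
    linarith
  hG3 := by
    intro x h1 h2
    have hb := bf_ge
    unfold Gf
    have h3 := abs_le.1 (G0_abs 101 100)
    norm_num at h3
    rcases le_total x 100 with h | h
    · rcases le_total (-100) x with h' | h'
      · have h4 := G0_mid h' h
        linarith [h3.1, h3.2]
      · have h4 := G0_mid (x := -100) le_rfl (by norm_num)
        have h5 := abs_le.1 (G0_abs x (-100))
        have h6 : |x - -100| ≤ 1 := by rw [abs_le]; constructor <;> linarith
        norm_num at h4
        linarith [h3.1, h3.2, h5.1, h5.2]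
    · have h5 := abs_le.1 (G0_abs x 101)
      have h6 : |x - 101| ≤ 1 := by rw [abs_le]; constructor <;> linarith
      linarith [h5.1, h5.2]

theorem step_hasDerivAt (x : ℝ) : HasDerivAt step (deriv step x) x :=
  ((step_contDiff (n := 1)).differentiable (by norm_num) x).hasDerivAt

theorem fderiv_fst {f : ℝ × ℝ → ℝ} {z : ℝ × ℝ} (hf : DifferentiableAt ℝ f z) {d : ℝ}
    (h : HasDerivAt (fun t => f (t, z.2)) d z.1) : fderiv ℝ f z (1, 0) = d := by
  have h1 : HasDerivAt (fun t : ℝ => ((t, z.2) : ℝ × ℝ)) (1, 0) z.1 :=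
    (hasDerivAt_id z.1).prodMk (hasDerivAt_const z.1 z.2)
  have h2 : HasDerivAt (fun t => f (t, z.2)) (fderiv ℝ f z (1, 0)) z.1 :=
    (hf.hasFDerivAt (x := (z.1, z.2))).comp_hasDerivAt z.1 h1
  exact h2.unique h

theorem fderiv_snd {f : ℝ × ℝ → ℝ} {z : ℝ × ℝ} (hf : DifferentiableAt ℝ f z) {d : ℝ}
    (h : HasDerivAt (fun t => f (z.1, t)) d z.2) : fderiv ℝ f z (0, 1) = d := by
  have h1 : HasDerivAt (fun t : ℝ => ((z.1, t) : ℝ × ℝ)) (0, 1) z.2 :=
    (hasDerivAt_const z.2 z.1).prodMk (hasDerivAt_id z.2)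
  have h2 : HasDerivAt (fun t => f (z.1, t)) (fderiv ℝ f z (0, 1)) z.2 :=
    (hf.hasFDerivAt (x := (z.1, z.2))).comp_hasDerivAt z.2 h1
  exact h2.unique h

theorem orth (z : ℝ × ℝ) :
    fderiv ℝ Pf z (1, 0) * fderiv ℝ Pf z (0, 1) + fderiv ℝ Qf z (1, 0) * fderiv ℝ Qf z (0, 1) = 0 := by
  have hP : DifferentiableAt ℝ Pf z := (Pf_contDiff (n := 1)).differentiable (by norm_num) z
  have hQ : DifferentiableAt ℝ Qf z := (Qf_contDiff (n := 1)).differentiable (by norm_num) z
  obtain ⟨x, y⟩ := z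
  set u := step x with hu
  set v := step y with hv
  have hx := step_hasDerivAt x
  have hy := step_hasDerivAt y
  have e1 : fderiv ℝ Pf (x, y) (1, 0) = (5 * u ^ 4 - 30 * u ^ 2 * v ^ 2 + 5 * v ^ 4) / 8 * deriv step x := by
    apply fderiv_fst hP
    have h := (((hx.pow 5).sub (((hx.pow 3).const_mul 10).mul_const (v ^ 2))).add
      ((hx.const_mul 5).mul_const (v ^ 4))).div_const 8 |>.const_add (-v)
    refine h.congr_deriv ?_
    rw [← hu]
    push_cast
    ring
  have e2 : fderiv ℝ Pf (x, y) (0, 1) = (-1 + (-20 * u ^ 3 * v + 20 * u * v ^ 3) / 8) * deriv step y := by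
    apply fderiv_snd hP
    have h := hy.neg.add (((((hy.pow 2).const_mul (10 * u ^ 3)).const_sub (u ^ 5)).add
      ((hy.pow 4).const_mul (5 * u))).div_const 8)
    refine h.congr_deriv ?_
    rw [← hv]
    push_cast
    ring
  have e3 : fderiv ℝ Qf (x, y) (1, 0) = (1 + (20 * u ^ 3 * v - 20 * u * v ^ 3) / 8) * deriv step x := by
    apply fderiv_fst hQ
    have h := hx.add ((((((hx.pow 4).const_mul 5).mul_const v).sub
      (((hx.pow 2).const_mul 10).mul_const (v ^ 3))).add_const (v ^ 5)).div_const 8)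
    refine h.congr_deriv ?_
    rw [← hu]
    push_cast
    ring
  have e4 : fderiv ℝ Qf (x, y) (0, 1) = (5 * u ^ 4 - 30 * u ^ 2 * v ^ 2 + 5 * v ^ 4) / 8 * deriv step y := by
    apply fderiv_snd hQ
    have h := ((((hy.const_mul (5 * u ^ 4)).sub ((hy.pow 3).const_mul (10 * u ^ 2))).add
      (hy.pow 5)).div_const 8).const_add u
    refine h.congr_deriv ?_
    rw [← hv]
    push_cast
    ring
  rw [e1, e2, e3, e4]
  ring

end Pool.Agent.LibMP3ec6ac
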