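import Mathlib.Analysis.ODE.ExistUnique
import Mathlib.MeasureTheory.Integral.IntervalIntegral.FundThmCalculus
import Mathlib.Analysis.Calculus.Deriv.MeanValue
import Mathlib.Analysis.Calculus.ContDiff.RCLike
import Mathlib.Analysis.SpecialFunctions.SmoothTransition
import Mathlib.Tactic

open Set Filter Topology

namespace Pool.Agent.LibMP3ec6ac

/-- A scalar autonomous equation `x' = A x` with `A` continuous and `-3/2 ≤ A ≤ -1/2` has a
solution through every point, which decreases and reaches every smaller value. -/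
theorem scalar_solution (A : ℝ → ℝ) (hA : Continuous A) (h1 : ∀ x, A x ≤ -(1/2))
    (h2 : ∀ x, -(3/2) ≤ A x) (x0 : ℝ) :
    ∃ ξ : ℝ → ℝ, ξ 0 = x0 ∧ (∀ t, HasDerivAt ξ (A (ξ t)) t) ∧ StrictAnti ξ ∧
      Function.Surjective ξ := by
  -- σ x = ∫_{x0}^{x} 1/(-A)
  set σ : ℝ → ℝ := fun x => ∫ s in x0..x, (-A s)⁻¹ with hσ
  have hne : ∀ x, -A x ≠ 0 := fun x => by have := h1 x; linarith
  have hcont : Continuous (fun s => (-A s)⁻¹) := (hA.neg).inv₀ hne
  have hd : ∀ x, HasDerivAt σ ((-A x)⁻¹) x := fun x =>
    (hcont.integral_hasStrictDerivAt x0 x).hasDerivAt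
  have hpos : ∀ x, 2/3 ≤ (-A x)⁻¹ := fun x => by
    have h3 := h1 x; have h4 := h2 x
    rw [le_inv_comm₀ (by norm_num) (by linarith)]
    norm_num
    linarith
  have hσmono : StrictMono σ := strictMono_of_hasDerivAt_pos hd (fun x => by
    have := hpos x; linarith)
  have hdiff : Differentiable ℝ σ := fun x => (hd x).differentiableAt
  have hgrow : ∀ x y, x ≤ y → 2/3 * (y - x) ≤ σ y - σ x := fun x y hxy =>
    mul_sub_le_image_sub_of_le_deriv hdiff (fun x => by rw [(hd x).deriv]; exact hpos x) hxy
  have hσ0 : σ x0 = 0 := by simp [hσ]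
  have hsurj : Function.Surjective σ := by
    apply Continuous.surjective hdiff.continuous
    · apply tendsto_atTop_mono' atTop (f₁ := fun x => 2/3 * (x - x0))
      · filter_upwards [eventually_ge_atTop x0] with x hx
        have := hgrow x0 x hx
        rw [hσ0] at this
        linarith
      · apply Tendsto.const_mul_atTop (by norm_num)
        exact tendsto_atTop_add_const_right _ _ tendsto_id
    · apply tendsto_atBot_mono' atBot (f₂ := σ) (f₁ := fun x => 2/3 * (x - x0))
      · filter_upwards [eventually_le_atBot x0] with x hx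
        have := hgrow x x0 hx
        rw [hσ0] at this
        linarith
      · apply Tendsto.const_mul_atBot (by norm_num)
        exact tendsto_atBot_add_const_right _ _ tendsto_id
  let e : ℝ ≃o ℝ := hσmono.orderIsoOfSurjective σ hsurj
  have he : ∀ x, e x = σ x := fun x => rfl
  refine ⟨fun t => e.symm (-t), ?_, ?_, ?_, ?_⟩
  · show e.symm (-0) = x0
    rw [neg_zero, OrderIso.symm_apply_eq, he, hσ0]
  · intro t
    have hc : ContinuousAt e.symm (-t) := e.symm.continuous.continuousAt
    have h := HasDerivAt.of_local_left_inverse hc (f := σ) (f' := (-A (e.symm (-t)))⁻¹)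
      (hd _) (inv_ne_zero (hne _)) (Eventually.of_forall fun y => e.apply_symm_apply y)
    rw [inv_inv] at h
    have h' := HasDerivAt.comp t h (hasDerivAt_neg t)
    have h3 : (- A (e.symm (-t))) * (-1) = A (e.symm (-t)) := by ring
    rw [h3] at h'
    exact h'
  · intro a b hab
    show e.symm (-b) < e.symm (-a)
    exact e.symm.strictMono (by linarith)
  · intro y
    refine ⟨-(e y), ?_⟩
    show e.symm (-(-(e y))) = y
    simp

end Pool.Agent.LibMP3ec6ac
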